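import Pool.Agent.Work.MP_14c213_gt.Iface

/-!
Definitions for the analytic part: calculus on `GL₂(ℂ)`, the coordinates `(x, t)` of hyperbolic
3-space, flat bundles attached to tensor powers of `ℝ^{3,1}`.
-/

namespace Pool.Agent.Work.MP_14c213_gt

open Matrix MeasureTheory
open scoped Matrix ContDiff Matrix.Norms.Elementwise

noncomputable section

/-- Invertible complex 2 by 2 matrices. -/
def GLo : Set M2 := {g | g.det ≠ 0}

variable {V : Type*} [NormedAddCommGroup V] [NormedSpace ℝ V]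

/-- Left invariant derivative: `E X F g = d/dt F (g exp (t X))` at `t = 0`. -/
def E (X : M2) (F : M2 → V) : M2 → V := fun g => fderiv ℝ F g (g * X)

/-- `e i = σ_{i+1} / 2`, generator of the boost in direction `i`. -/
def eX (i : Fin 3) : M2 := (2⁻¹ : ℂ) • pauli i.succ

/-- `r i = i σ_{i+1} / 2`, generator of a rotation. -/
def rX (i : Fin 3) : M2 := (Complex.I / 2) • pauli i.succ

/-- Minus the Casimir operator. -/
def Cas (F : M2 → V) : M2 → V :=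
  fun g => -(∑ i, E (eX i) (E (eX i) F) g) + ∑ i, E (rX i) (E (rX i) F) g

/-- Index set of the `k`-th tensor power of `ℂ⁴`. -/
abbrev Ix (k : ℕ) := Fin k → Fin 4

/-- The `k`-th tensor power of a real 4 by 4 matrix. -/
def rho (k : ℕ) (A : Mat 3) : Matrix (Ix k) (Ix k) ℂ :=
  Matrix.of fun I L => ∏ a, (A (I a) (L a) : ℂ)

/-- Derivative of `rho k` at the identity in the direction `Y`. -/
def drho (k : ℕ) (Y : Mat 3) : Matrix (Ix k) (Ix k) ℂ :=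
  Matrix.of fun I L => ∑ a, (Y (I a) (L a) : ℂ) * ∏ b ∈ Finset.univ.erase a, (1 : Mat 3) (I b) (L b)

/-- The infinitesimal boost `Y = d/dt boost 3 i t` at `t = 0`. -/
def bY (i : Fin 3) : Mat 3 := Matrix.single 0 i.succ 1 + Matrix.single i.succ 0 1

/-- The restriction of the `k`-th tensor power representation to `O(3)`. -/
def tau (k : ℕ) (m : Matrix (Fin 3) (Fin 3) ℝ) : Matrix (Ix k) (Ix k) ℂ := rho k (rot m)

/-- The flat Laplacian `P = -∑ (E_i + dρ(e_i))²` in the frame picture. -/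
def Dfl (k : ℕ) (i : Fin 3) (F : M2 → Ix k → ℂ) : M2 → Ix k → ℂ :=
  fun g => E (eX i) F g + drho k (bY i) *ᵥ F g

def Pop (k : ℕ) (F : M2 → Ix k → ℂ) : M2 → Ix k → ℂ :=
  fun g => -∑ i, Dfl k i (Dfl k i F) g

/-- The rotation block of `Phi u` for unitary `u`. -/
def Rot (u : M2) : Matrix (Fin 3) (Fin 3) ℝ := Matrix.of fun i j => Phi u i.succ j.succ

variable {J : Type} [Fintype J]

/-- Smooth sections on `GL₂(ℂ)` of the bundle attached to `τ`. -/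
def Sect (τ : Matrix (Fin 3) (Fin 3) ℝ → Matrix J J ℂ) (Γ : Subgroup (Mat 3)ˣ) :
    Submodule ℂ (M2 → J → ℂ) where
  carrier := {F | (∀ g, g ∉ GLo → F g = 0) ∧ ContDiffOn ℝ ∞ F GLo ∧
    (∀ z : ℂ, z ≠ 0 → ∀ g ∈ GLo, F (z • g) = F g) ∧
    (∀ γ ∈ Γ, ∀ h ∈ GLo, Phi h = (γ : Mat 3) → ∀ g ∈ GLo, F (h * g) = F g) ∧
    (∀ u ∈ Matrix.unitaryGroup (Fin 2) ℂ, ∀ g ∈ GLo, F (g * u) = τ (Rot u)ᵀ *ᵥ F g)}
  zero_mem' := by
    refine ⟨fun _ _ => rfl, contDiffOn_const, fun _ _ _ _ => rfl, fun _ _ _ _ _ _ _ => rfl,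
      fun k _ g _ => ?_⟩
    simp
  add_mem' := by
    rintro F G ⟨h1, h2, h3, h4, h5⟩ ⟨k1, k2, k3, k4, k5⟩
    refine ⟨fun g hg => ?_, h2.add k2, fun z hz g hg => ?_, fun γ hγ h hh e g hg => ?_,
      fun k hk g hg => ?_⟩
    · simp [h1 g hg, k1 g hg]
    · simp [h3 z hz g hg, k3 z hz g hg]
    · simp [h4 γ hγ h hh e g hg, k4 γ hγ h hh e g hg]
    · simp [h5 k hk g hg, k5 k hk g hg, Matrix.mulVec_add]
  smul_mem' := by
    rintro c F ⟨h1, h2, h3, h4, h5⟩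
    refine ⟨fun g hg => ?_, h2.const_smul c, fun z hz g hg => ?_, fun γ hγ h hh e g hg => ?_,
      fun k hk g hg => ?_⟩
    · simp [h1 g hg]
    · simp [h3 z hz g hg]
    · simp [h4 γ hγ h hh e g hg]
    · simp [h5 k hk g hg, Matrix.mulVec_smul]

/-- Coordinates of hyperbolic 3-space: `(x, t)` with `t > 0`. -/
abbrev UH := ℂ × ℝ

/-- The open set of coordinates. -/
def UHs : Set UH := {p | 0 < p.2}

/-- The section `(x, t) ↦ (t x; 0 1)` of `GL₂(ℂ) → H³`. -/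
def sec (p : UH) : M2 := !![(p.2 : ℂ), p.1; 0, 1]

/-- The frame at `(x, t)`. -/
def SS (p : UH) : Mat 3 := Phi (sec p)

/-- Coordinates of the point in column `0` of a frame. -/
def cor (A : Mat 3) : UH :=
  (((A 1 0 : ℂ) - Complex.I * A 2 0) / ((A 0 0 : ℂ) - A 3 0), 1 / (A 0 0 - A 3 0))

/-- Action of a Lorentz matrix in coordinates. -/
def act (A : Mat 3) (p : UH) : UH := cor (A * SS p)

/-- Hyperbolic volume. -/
def mu : Measure UH := (volume.restrict UHs).withDensity fun p => ENNReal.ofReal (p.2 ^ (-3 : ℤ))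

/-- A relatively compact strict fundamental domain. -/
structure FD (Γ : Subgroup (Mat 3)ˣ) (D : Set UH) : Prop where
  meas : MeasurableSet D
  sub : D ⊆ UHs
  bdd : ∃ K, IsCompact K ∧ K ⊆ UHs ∧ D ⊆ K
  ex : ∀ p ∈ UHs, ∃ γ ∈ Γ, act (γ : Mat 3) p ∈ D
  uniq : ∀ p ∈ D, ∀ γ ∈ Γ, act (γ : Mat 3) p ∈ D → γ = 1

/-- The Hilbert space of square integrable sections of the bundle of `tau k`, in the frame
picture along `sec`. -/
abbrev Hk (k : ℕ) (D : Set UH) := Lp (EuclideanSpace ℂ (Ix k)) 2 (mu.restrict D)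

/-- The kernel `∑_γ A(2 (g⁻¹ γ h)₀₀) ρ(g⁻¹ γ h)`, with `A` a compactly supported profile. -/
def ker (k : ℕ) (Γ : Subgroup (Mat 3)ˣ) (A : ℝ → ℝ) (g h : Mat 3) : Matrix (Ix k) (Ix k) ℂ :=
  ∑ᶠ γ : Γ, ((A (2 * (g⁻¹ * (γ : (Mat 3)ˣ) * h) 0 0) : ℝ) : ℂ) • rho k (g⁻¹ * (γ : (Mat 3)ˣ) * h)

/-- Orientation preserving isometries. -/
def SO : Set (Mat 3) := {A | A ∈ Frames 3 ∧ A.det = 1}

/-- `exp (t e_i)`. -/
def bst (i : Fin 3) (t : ℝ) : M2 :=
  (Real.cosh (t / 2) : ℂ) • (1 : M2) + (Real.sinh (t / 2) : ℂ) • pauli i.succ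

/-- `exp (t r_i)`. -/
def rt (i : Fin 3) (t : ℝ) : M2 :=
  (Real.cos (t / 2) : ℂ) • (1 : M2) + (Complex.I * (Real.sin (t / 2) : ℂ)) • pauli i.succ

/-- The infinitesimal rotation `d/dt Phi (rt i t)` at `t = 0`. -/
def rY (i : Fin 3) : Mat 3 :=
  Matrix.single (i + 1).succ (i + 2).succ 1 - Matrix.single (i + 2).succ (i + 1).succ 1

/-- The constant `∑ dρ(r_i)²`. -/
def ck (k : ℕ) : Matrix (Ix k) (Ix k) ℂ := ∑ i, drho k (rY i) * drho k (rY i)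

/-- The formal adjoint of `Pop k`. -/
def DflS (k : ℕ) (i : Fin 3) (F : M2 → Ix k → ℂ) : M2 → Ix k → ℂ :=
  fun g => -E (eX i) F g + drho k (bY i) *ᵥ F g

def PopS (k : ℕ) (F : M2 → Ix k → ℂ) : M2 → Ix k → ℂ :=
  fun g => -∑ i, DflS k i (DflS k i F) g

/-- Inner product of sections over a fundamental domain. -/
def ip (k : ℕ) (D : Set UH) (F G : M2 → Ix k → ℂ) : ℂ :=
  ∫ p in D, star (F (sec p)) ⬝ᵥ G (sec p) ∂mu

/-- Families of sections which form a section of the bundle tensored with the tangent bundle. -/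
structure Vec (k : ℕ) (Γ : Subgroup (Mat 3)ˣ) (H : Fin 3 → M2 → Ix k → ℂ) : Prop where
  zero : ∀ i g, g ∉ GLo → H i g = 0
  smooth : ∀ i, ContDiffOn ℝ ∞ (H i) GLo
  scal : ∀ i, ∀ z : ℂ, z ≠ 0 → ∀ g ∈ GLo, H i (z • g) = H i g
  inv : ∀ i, ∀ γ ∈ Γ, ∀ h ∈ GLo, Phi h = (γ : Mat 3) → ∀ g ∈ GLo, H i (h * g) = H i g
  equiv : ∀ u ∈ Matrix.unitaryGroup (Fin 2) ℂ, ∀ g ∈ GLo, ∀ i,
    H i (g * u) = ∑ j, (Rot u j i : ℂ) • (tau k (Rot u)ᵀ *ᵥ H j g)

/-- Continuous profiles which vanish for large arguments. -/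
structure Prof (A : ℝ → ℝ) : Prop where
  cont : Continuous A
  supp : ∃ M, ∀ v, M ≤ v → A v = 0

/-- The integral operator with kernel `A(2 cosh d) ρ` on functions on `GL₂(ℂ)`. -/
def RA (k : ℕ) (A : ℝ → ℝ) (F : M2 → Ix k → ℂ) : M2 → Ix k → ℂ :=
  fun g => if g.det = 0 then 0 else
    ∫ q in UHs, ((A (2 * SS q 0 0) : ℝ) : ℂ) • (rho k (SS q) *ᵥ F (g * sec q)) ∂mu

/-- Convolution of profiles. -/
def conv (A B : ℝ → ℝ) (v : ℝ) : ℝ :=
  ∫ q in UHs, A (2 * SS q 0 0) * B (2 * ((SS q)⁻¹ * boost 3 2 (Real.arcosh (max (v / 2) 1))) 0 0) ∂mu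

/-- `shc w r = sinh (√w r) / √w`. -/
def shc (w : ℂ) (r : ℝ) : ℂ := ∑' n : ℕ, w ^ n * (r : ℂ) ^ (2 * n + 1) / ((2 * n + 1).factorial : ℂ)

/-- The spherical function for the eigenvalue `x` as a function of `c = cosh r`. -/
def phi (x : ℂ) (c : ℝ) : ℂ :=
  if c ≤ 1 then 1 else shc (1 - x) (Real.arcosh c) / (Real.sinh (Real.arcosh c) : ℂ)

/-- Spherical transform of a profile. -/
def ahat (A : ℝ → ℝ) (x : ℂ) : ℂ :=
  ∫ q in UHs, ((A (2 * SS q 0 0) : ℝ) : ℂ) * phi x (SS q 0 0) ∂mu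

end

end Pool.Agent.Work.MP_14c213_gt
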