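import Pool.Agent.Work.MP_14c213_gt.Iface

/-!
Definitions for the arithmetic part.  k = ℚ(√-15) = ℚ(θ), θ² = θ - 4;  K = k(ζ), ζ² = -1 - ζ;
A = K ⊕ K j, j² = b = 43 + 7θ.
-/

namespace Pool.Agent.Work.MP_14c213_gt

open Matrix IsDedekindDomain
open scoped Matrix NumberField QuadraticAlgebra

noncomputable section

/-- The field `k = ℚ(√-15)`: elements `⟨x, y⟩ = x + y θ` with `θ² = -4 + θ`. -/
abbrev kk := QuadraticAlgebra ℚ (-4) 1

instance kk_fact : Fact (∀ r : ℚ, r ^ 2 ≠ -4 + 1 * r) :=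
  ⟨fun r h => by nlinarith [sq_nonneg (2 * r - 1)]⟩

instance kk_nf : NumberField kk where
  to_charZero := inferInstance
  to_finiteDimensional := by
    have h : Module.Finite ℚ (QuadraticAlgebra ℚ (-4) 1) := inferInstance
    convert h

theorem sq5 (p : ℚ) : 5 * p ^ 2 + 5 * p + 1 ≠ 0 := by
  intro h
  have h2 : (2 * (5 * p) + 5) ^ 2 = 5 := by linarith [h]
  have : IsSquare (5 : ℚ) := ⟨2 * (5 * p) + 5, by rw [← pow_two]; exact h2.symm⟩
  rw [show (5 : ℚ) = ((5 : ℕ) : ℚ) by norm_num, Rat.isSquare_natCast_iff] at this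
  obtain ⟨r, hr⟩ := this
  have : r ≤ 2 := by nlinarith
  interval_cases r <;> omega

instance KK_fact : Fact (∀ r : kk, r ^ 2 ≠ -1 + -1 * r) := ⟨fun r h => by
  obtain ⟨p, q⟩ := r
  have h1 := congrArg QuadraticAlgebra.re h
  have h2 := congrArg QuadraticAlgebra.im h
  simp [pow_two] at h1 h2
  have h3 : q * (2 * p + q + 1) = 0 := by linarith
  rcases mul_eq_zero.1 h3 with h4 | h4
  · subst h4; nlinarith [sq_nonneg (2 * p + 1)]
  · have h5 : q = -(2 * p + 1) := by linarith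
    subst h5
    exact sq5 p (by nlinarith [h1])⟩

/-- The structure constant `b = 43 + 7 θ`. -/
def bq : kk := ⟨43, 7⟩

/-- The field `K = k(ζ)`, `ζ² = -1 - ζ`. -/
abbrev KK := QuadraticAlgebra kk (-1) (-1)

/-- The quaternion algebra `A = K ⊕ K j`, `j² = b`; here `i = ζ`. -/
abbrev AA := QuaternionAlgebra kk (-1) (-1) bq

/-- `g = xp g + yp g * j`. -/
def xp (g : AA) : KK := ⟨g.re, g.imI⟩
def yp (g : AA) : KK := ⟨g.imJ, g.imK⟩

/-- The element `x + y j`. -/
def mkA (x y : KK) : AA := ⟨x.re, x.im, y.re, y.im⟩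

/-- The norm `N : K → k`, `N (x₀ + x₁ ζ) = x₀² - x₀ x₁ + x₁²`. -/
def NK (x : KK) : kk := x.re ^ 2 - x.re * x.im + x.im ^ 2

/-- The reduced norm. -/
def nrd (g : AA) : kk := NK (xp g) - bq * NK (yp g)

theorem NK_mul (x y : KK) : NK (x * y) = NK x * NK y := by
  simp only [NK, QuadraticAlgebra.re_mul, QuadraticAlgebra.im_mul]
  ring

theorem NK_one : NK 1 = 1 := by simp [NK]

theorem nrd_mul (g h : AA) : nrd (g * h) = nrd g * nrd h := by
  simp only [nrd, NK, xp, yp, QuaternionAlgebra.re_mul, QuaternionAlgebra.imI_mul,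
    QuaternionAlgebra.imJ_mul, QuaternionAlgebra.imK_mul]
  ring

theorem nrd_one : nrd 1 = 1 := by simp [nrd, NK, xp, yp]

theorem nrd_ne (g : AAˣ) : nrd (g : AA) ≠ 0 := by
  intro h
  have := nrd_mul (g : AA) ((g⁻¹ : AAˣ) : AA)
  rw [Units.mul_inv, nrd_one, h, zero_mul] at this
  exact one_ne_zero this

/-- The places of `k`. -/
abbrev Pl := HeightOneSpectrum (𝓞 kk)

/-- The additive valuation (with `ord v 0 = 0`). -/
def ord (v : Pl) (x : kk) : ℤ := -WithZero.log (v.valuation kk x)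

theorem ord_mul (v : Pl) {x y : kk} (hx : x ≠ 0) (hy : y ≠ 0) : ord v (x * y) = ord v x + ord v y := by
  have h1 : v.valuation kk x ≠ 0 := by simpa using hx
  have h2 : v.valuation kk y ≠ 0 := by simpa using hy
  simp only [ord, map_mul, WithZero.log_mul h1 h2]
  ring

theorem ord_one (v : Pl) : ord v 1 = 0 := by simp [ord]

/-- The ramified places of `A`: the primes which divide `b`. -/
def SS4 : Set Pl := {v | ord v bq ≠ 0}

theorem int_kk (x y : ℤ) : IsIntegral ℤ (⟨x, y⟩ : kk) := by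
  refine ⟨Polynomial.X ^ 2 - Polynomial.C (2 * x + y) * Polynomial.X +
    Polynomial.C (x ^ 2 + x * y + 4 * y ^ 2), ?_, ?_⟩
  · monicity!
  · simp only [Polynomial.eval₂_add, Polynomial.eval₂_sub, Polynomial.eval₂_mul,
      Polynomial.eval₂_pow, Polynomial.eval₂_X, Polynomial.eval₂_C]
    ext <;> simp [pow_two, QuadraticAlgebra.re_ofNat, QuadraticAlgebra.im_ofNat] <;> ring

theorem val_int (v : Pl) (x y : ℤ) : v.valuation kk (⟨x, y⟩ : kk) ≤ 1 :=
  v.valuation_le_one (K := kk) (⟨⟨x, y⟩, int_kk x y⟩ : 𝓞 kk)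

theorem val_bq (v : Pl) : v.valuation kk bq ≤ 1 := by
  have := val_int v 43 7
  simpa [bq] using this

/-- The order `O_v[ζ] ⊕ O_v[ζ] j` at `v`. -/
def OO (v : Pl) : Subring AA where
  carrier := {g | v.valuation kk g.re ≤ 1 ∧ v.valuation kk g.imI ≤ 1 ∧ v.valuation kk g.imJ ≤ 1 ∧
    v.valuation kk g.imK ≤ 1}
  zero_mem' := by simp
  one_mem' := by simp
  add_mem' := by
    rintro a b ⟨h1, h2, h3, h4⟩ ⟨k1, k2, k3, k4⟩
    refine ⟨?_, ?_, ?_, ?_⟩ <;>
    first
      | exact (v.valuation kk).map_add_le h1 k1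
      | exact (v.valuation kk).map_add_le h2 k2
      | exact (v.valuation kk).map_add_le h3 k3
      | exact (v.valuation kk).map_add_le h4 k4
  neg_mem' := by
    rintro a ⟨h1, h2, h3, h4⟩
    exact ⟨by simpa using h1, by simpa using h2, by simpa using h3, by simpa using h4⟩
  mul_mem' := by
    rintro a b ⟨h1, h2, h3, h4⟩ ⟨k1, k2, k3, k4⟩
    have hb := val_bq v
    simp only [← Valuation.mem_integer_iff] at *
    refine ⟨?_, ?_, ?_, ?_⟩ <;>
    simp only [QuaternionAlgebra.re_mul, QuaternionAlgebra.imI_mul, QuaternionAlgebra.imJ_mul,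
      QuaternionAlgebra.imK_mul] <;>
    repeat' first
      | apply Subring.add_mem | apply Subring.sub_mem | apply Subring.mul_mem
      | apply Subring.neg_mem | apply Subring.one_mem | assumption

/-- The local group `k_v^× O_v^×` at an unramified place. -/
def Uun (v : Pl) : Subgroup AAˣ where
  carrier := {g | ∃ z : kk, z ≠ 0 ∧ z • (g : AA) ∈ OO v ∧ z⁻¹ • ((g⁻¹ : AAˣ) : AA) ∈ OO v}
  one_mem' := ⟨1, one_ne_zero, by simpa using (OO v).one_mem, by simpa using (OO v).one_mem⟩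
  mul_mem' := by
    rintro g h ⟨z, hz, h1, h2⟩ ⟨w, hw, k1, k2⟩
    refine ⟨z * w, mul_ne_zero hz hw, ?_, ?_⟩
    · have := (OO v).mul_mem h1 k1
      rwa [smul_mul_smul_comm] at this
    · have := (OO v).mul_mem k2 h2
      rw [smul_mul_smul_comm] at this
      rwa [_root_.mul_inv_rev, _root_.mul_inv_rev, Units.val_mul]
  inv_mem' := by
    rintro g ⟨z, hz, h1, h2⟩
    exact ⟨z⁻¹, inv_ne_zero hz, h2, by simpa using h1⟩

/-- The local group at a ramified place: even valuation of the norm. -/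
def Uram (v : Pl) : Subgroup AAˣ where
  carrier := {g | Even (ord v (nrd (g : AA)))}
  one_mem' := by simp [nrd_one, ord_one]
  mul_mem' := by
    intro g h hg hh
    simp only [Set.mem_ofPred_eq, Units.val_mul, nrd_mul, ord_mul v (nrd_ne g) (nrd_ne h)] at *
    exact hg.add hh
  inv_mem' := by
    intro g hg
    have h1 := nrd_mul (g : AA) ((g⁻¹ : AAˣ) : AA)
    rw [Units.mul_inv, nrd_one] at h1
    have h2 := ord_mul v (nrd_ne g) (nrd_ne g⁻¹)
    rw [← h1, ord_one] at h2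
    have h3 : ord v (nrd ((g⁻¹ : AAˣ) : AA)) = -ord v (nrd (g : AA)) := by linarith
    simp only [Set.mem_ofPred_eq, h3] at *
    exact hg.neg

/-- The local groups. -/
def UU (v : Pl) : Subgroup AAˣ := open Classical in if v ∈ SS4 then Uram v else Uun v

/-- `w(g) = x / σ(x)` for `g = x + y j`. -/
def ww (g : AA) : KK := xp g / star (xp g)

/-- Congruence modulo the (inert) place `v` of elements of `K`. -/
def cg (v : Pl) (x y : KK) : Prop := v.valuation kk (NK (x - y)) < 1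

/-- `ζ`, a third root of unity. -/
def zeta : KK := ⟨0, 1⟩

/-- `ε = ((2 - θ) + (1 - 2θ) ζ) / 3`, the golden ratio. -/
def eps : KK := ⟨⟨2 / 3, -1 / 3⟩, ⟨1 / 3, -2 / 3⟩⟩

/-- `u = ε / σ(ε) = -ε²`. -/
def uu : KK := eps / star eps

/-- `c = 2 + ζ = 1 + ζ₆`, `c / σ(c) = 1 + ζ = ζ₆`. -/
def cc : KK := ⟨2, 1⟩

/-- `-1` at places which are inert in `K`, `1` at split places: the residue class of the norm
modulo 3. -/
def om (v : Pl) : ℤˣ := if Ideal.absNorm v.asIdeal % 3 = 1 then 1 else -1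

/-- The embedding of `k`, `θ ↦ (1 + i√15)/2`. -/
def phik : kk →+* ℂ := (QuadraticAlgebra.lift (R := ℚ) (A := ℂ)
  ⟨(1 + Complex.I * (Real.sqrt 15 : ℂ)) / 2, by
    have h : ((Real.sqrt 15 : ℝ) : ℂ) ^ 2 = 15 := by
      rw [← Complex.ofReal_pow, Real.sq_sqrt (by norm_num)]; norm_num
    have hI := Complex.I_sq
    simp only [Algebra.smul_def]
    push_cast
    simp
    linear_combination (1/4 : ℂ) * Complex.I^2 * h + (15/4) * hI⟩ : kk →ₐ[ℚ] ℂ).toRingHom

/-- The complex number `ζ ↦ (-1 + i√3)/2`. -/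
def zc : ℂ := (-1 + Complex.I * (Real.sqrt 3 : ℂ)) / 2

theorem zc_sq : zc * zc = -1 - zc := by
  have h : ((Real.sqrt 3 : ℝ) : ℂ) ^ 2 = 3 := by
    rw [← Complex.ofReal_pow, Real.sq_sqrt (by norm_num)]; norm_num
  have hI := Complex.I_sq
  simp only [zc]
  linear_combination (1/4 : ℂ) * Complex.I^2 * h + (3/4) * hI

/-- The embedding of `K`. -/
def phiK : KK →+* ℂ where
  toFun x := phik x.re + phik x.im * zc
  map_zero' := by simp
  map_one' := by simp
  map_add' x y := by simp [map_add]; ring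
  map_mul' x y := by
    simp only [QuadraticAlgebra.re_mul, QuadraticAlgebra.im_mul, map_add, map_mul, map_neg, map_one]
    linear_combination (-phik x.im * phik y.im) * zc_sq

/-- The embedding of `A` in `M₂(ℂ)`: `x + y j ↦ (x, b y; σ y, σ x)`. -/
def iotaA (g : AA) : M2 :=
  !![phiK (xp g), phik bq * phiK (yp g); phiK (star (yp g)), phiK (star (xp g))]

end

end Pool.Agent.Work.MP_14c213_gt
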