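import Mathlib

/-!
Hyperbolic manifolds, natural bundles and natural differential operators in the frame bundle
(hyperboloid) model.  Definitions used in the statement for MP_14c213_gt.
-/

namespace Pool.Agent.Work.MP_14c213_gt

open Matrix
open scoped Matrix ContDiff Matrix.Norms.Elementwise

noncomputable section

/-- Real matrices of size `n + 1`. -/
abbrev Mat (n : ℕ) := Matrix (Fin (n + 1)) (Fin (n + 1)) ℝ

/-- The Gram matrix of the Minkowski form `-x₀² + x₁² + ⋯ + xₙ²` on `ℝ^(n+1)`. -/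
def eta (n : ℕ) : Mat n := Matrix.diagonal (Fin.cons (-1) fun _ => 1)

/-- Hyperbolic `n`-space: the upper sheet of the hyperboloid `-x₀² + x₁² + ⋯ + xₙ² = -1`. -/
def Hyp (n : ℕ) : Set (Fin (n + 1) → ℝ) := {x | x ⬝ᵥ (eta n *ᵥ x) = -1 ∧ 0 < x 0}

/-- The orthonormal frame bundle of hyperbolic `n`-space.  A point is a matrix whose column `0` is
a point `x` of `Hyp n` and whose columns `1, …, n` are an orthonormal basis of the tangent space
of `Hyp n` at `x` (for the Minkowski form).  As a set of matrices this is also the full isometry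
group of hyperbolic `n`-space, which acts on frames by multiplication from the left. -/
def Frames (n : ℕ) : Set (Mat n) := {g | gᵀ * eta n * g = eta n ∧ 0 < g 0 0}

/-- `Γ` is a group of isometries of hyperbolic `n`-space which acts properly discontinuously,
freely and cocompactly, so that `Γ \ Hyp n` is a closed connected hyperbolic `n`-manifold. -/
structure IsClosedHyp (n : ℕ) (Γ : Subgroup (Mat n)ˣ) : Prop where
  isom : ∀ γ ∈ Γ, (γ : Mat n) ∈ Frames n
  proper : ∀ K ⊆ Hyp n, IsCompact K →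
    {γ : (Mat n)ˣ | γ ∈ Γ ∧ ∃ x ∈ K, (γ : Mat n) *ᵥ x ∈ K}.Finite
  free : ∀ γ ∈ Γ, ∀ x ∈ Hyp n, (γ : Mat n) *ᵥ x = x → γ = 1
  cocompact : ∃ K ⊆ Hyp n, IsCompact K ∧ ∀ x ∈ Hyp n, ∃ γ ∈ Γ, (γ : Mat n) *ᵥ x ∈ K

/-- The matrix which changes the tangent vectors of a frame by `k ∈ O(n)`: the frame `g * rot k`
has the same base point as `g` and the tangent vectors `∑ i, k i j • (column i + 1 of g)`. -/
def rot {n : ℕ} (k : Matrix (Fin n) (Fin n) ℝ) : Mat n :=
  Matrix.of (Fin.cons (Fin.cons 1 fun _ => 0) fun i => Fin.cons 0 (k i))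

/-- `g * boost n i t` is the frame `g` transported parallelly for time `t` along the unit speed
geodesic which starts in the direction of the `i`-th tangent vector of `g`. -/
def boost (n : ℕ) (i : Fin n) (t : ℝ) : Mat n :=
  Matrix.of fun a b =>
    if (a = 0 ∧ b = 0) ∨ (a = i.succ ∧ b = i.succ) then Real.cosh t
    else if (a = 0 ∧ b = i.succ) ∨ (a = i.succ ∧ b = 0) then Real.sinh t
    else if a = b then 1 else 0

variable {n : ℕ} {J : Type} [Fintype J]

/-- Covariant derivative in the direction of the `i`-th vector of the frame, of a section of a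
natural bundle written as a vector valued function on the frame bundle. -/
def nabla (i : Fin n) (F : Mat n → J → ℂ) : Mat n → J → ℂ :=
  fun g => deriv (fun t : ℝ => F (g * boost n i t)) 0

/-- Smooth sections over `Γ \ Hyp n` of the natural bundle associated with the representation `τ`
of `O(n)`: smooth functions on the frame bundle which are invariant under `Γ` and equivariant
under `O(n)` (and extended by `0` to all matrices). -/
def Sec (τ : Matrix (Fin n) (Fin n) ℝ → Matrix J J ℂ) (Γ : Subgroup (Mat n)ˣ) :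
    Submodule ℂ (Mat n → J → ℂ) where
  carrier := {F | (∀ g, g ∉ Frames n → F g = 0) ∧ ContDiffOn ℝ ∞ F (Frames n) ∧
    (∀ γ ∈ Γ, ∀ g ∈ Frames n, F ((γ : Mat n) * g) = F g) ∧
    (∀ k ∈ Matrix.orthogonalGroup (Fin n) ℝ, ∀ g ∈ Frames n, F (g * rot k) = τ kᵀ *ᵥ F g)}
  zero_mem' := by
    refine ⟨fun _ _ => rfl, contDiffOn_const, fun _ _ _ _ => rfl, fun k _ g _ => ?_⟩
    simp
  add_mem' := by
    rintro F G ⟨h1, h2, h3, h4⟩ ⟨k1, k2, k3, k4⟩
    refine ⟨fun g hg => ?_, h2.add k2, fun γ hγ g hg => ?_, fun k hk g hg => ?_⟩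
    · simp [h1 g hg, k1 g hg]
    · simp [h3 γ hγ g hg, k3 γ hγ g hg]
    · simp [h4 k hk g hg, k4 k hk g hg, Matrix.mulVec_add]
  smul_mem' := by
    rintro c F ⟨h1, h2, h3, h4⟩
    refine ⟨fun g hg => ?_, h2.const_smul c, fun γ hγ g hg => ?_, fun k hk g hg => ?_⟩
    · simp [h1 g hg]
    · simp [h3 γ hγ g hg]
    · simp [h4 k hk g hg, Matrix.mulVec_smul]

/-! ### Differential forms and the Hodge Laplacian -/

/-- The representation of `O(n)` on the `p`-th tensor power of `ℂ^n`. -/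
def tens (n p : ℕ) (k : Matrix (Fin n) (Fin n) ℝ) : Matrix (Fin p → Fin n) (Fin p → Fin n) ℂ :=
  Matrix.of fun I L => ∏ a, (k (I a) (L a) : ℂ)

/-- A smooth complex valued `p`-form on `Γ \ Hyp n`, given by its components
`F g I = ω (e_{I 0}, …, e_{I (p-1)})` in the orthonormal frame `g`. -/
def IsForm (p : ℕ) (Γ : Subgroup (Mat n)ˣ) (F : Mat n → (Fin p → Fin n) → ℂ) : Prop :=
  F ∈ Sec (tens n p) Γ ∧
    ∀ g I (σ : Equiv.Perm (Fin p)), F g (I ∘ σ) = ((Equiv.Perm.sign σ : ℤ) : ℂ) * F g I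

/-- Exterior derivative. -/
def extD {p : ℕ} (F : Mat n → (Fin p → Fin n) → ℂ) : Mat n → (Fin (p + 1) → Fin n) → ℂ :=
  fun g I => ∑ a : Fin (p + 1), (-1 : ℂ) ^ (a : ℕ) * nabla (I a) F g (I ∘ a.succAbove)

/-- Codifferential. -/
def coD {p : ℕ} (F : Mat n → (Fin (p + 1) → Fin n) → ℂ) : Mat n → (Fin p → Fin n) → ℂ :=
  fun g I => -∑ j : Fin n, nabla j F g (Fin.cons j I)

/-- The Hodge Laplacian `dδ + δd` on `p`-forms. -/
def hodge : (p : ℕ) → (Mat n → (Fin p → Fin n) → ℂ) → (Mat n → (Fin p → Fin n) → ℂ)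
  | 0, F => coD (extD F)
  | _ + 1, F => extD (coD F) + coD (extD F)

/-- The multiplicity of `lam` as an eigenvalue of the Hodge Laplacian on `p`-forms on
`Γ \ Hyp n`: the dimension of the space of eigenforms. -/
def formMult (p : ℕ) (Γ : Subgroup (Mat n)ˣ) (lam : ℝ) : Cardinal :=
  Module.rank ℂ (Submodule.span ℂ {F | IsForm p Γ F ∧ hodge p F = (lam : ℂ) • F})

/-- `Γ₁ \ Hyp n` and `Γ₂ \ Hyp n` are `p`-isospectral. -/
def PIsospectral (p : ℕ) (Γ₁ Γ₂ : Subgroup (Mat n)ˣ) : Prop :=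
  ∀ lam : ℝ, formMult p Γ₁ lam = formMult p Γ₂ lam

/-! ### Natural differential operators -/

/-- `nablas [i₁, …, i_r] F = ∇_{i₁} ⋯ ∇_{i_r} F`. -/
def nablas : List (Fin n) → (Mat n → J → ℂ) → (Mat n → J → ℂ)
  | [], F => F
  | i :: I, F => nabla i (nablas I F)

/-- The differential operator `∑_I B_I ∇_{i₁} ⋯ ∇_{i_r}` with constant coefficients `B_I = D I` in
the orthonormal frame. -/
def opOf (D : List (Fin n) →₀ Matrix J J ℂ) (F : Mat n → J → ℂ) : Mat n → J → ℂ :=
  fun g => D.sum fun I B => B *ᵥ nablas I F g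

/-- Its formal adjoint `∑_I (-1)^r ∇_{i_r} ⋯ ∇_{i₁} B_I^*`. -/
def adjOf (D : List (Fin n) →₀ Matrix J J ℂ) (F : Mat n → J → ℂ) : Mat n → J → ℂ :=
  fun g => D.sum fun I B => (-1 : ℂ) ^ I.length • nablas I.reverse (fun h => Bᴴ *ᵥ F h) g

/-- `τ` is a continuous unitary matrix representation of `O(n)`. -/
structure IsRep [DecidableEq J] (τ : Matrix (Fin n) (Fin n) ℝ → Matrix J J ℂ) : Prop where
  cont : ContinuousOn τ (Matrix.orthogonalGroup (Fin n) ℝ : Set (Matrix (Fin n) (Fin n) ℝ))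
  one : τ 1 = 1
  mul : ∀ k ∈ Matrix.orthogonalGroup (Fin n) ℝ, ∀ l ∈ Matrix.orthogonalGroup (Fin n) ℝ,
    τ (k * l) = τ k * τ l
  unitary : ∀ k ∈ Matrix.orthogonalGroup (Fin n) ℝ, (τ k)ᴴ * τ k = 1

/-- The coefficients of `D` are invariant under `O(n)`, so that `opOf D` is a natural (isometry
invariant) operator on the bundle associated with `τ`. -/
def IsNatural (τ : Matrix (Fin n) (Fin n) ℝ → Matrix J J ℂ) (D : List (Fin n) →₀ Matrix J J ℂ) :
    Prop :=
  ∀ k ∈ Matrix.orthogonalGroup (Fin n) ℝ, ∀ (r : ℕ) (L : Fin r → Fin n),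
    ∑ I : Fin r → Fin n, (∏ a, (k (L a) (I a) : ℂ)) • (τ k * D (List.ofFn I) * τ kᵀ)
      = D (List.ofFn L)

/-- `opOf D` is formally self-adjoint. -/
def IsSelfAdj (τ : Matrix (Fin n) (Fin n) ℝ → Matrix J J ℂ) (D : List (Fin n) →₀ Matrix J J ℂ) :
    Prop :=
  ∀ F ∈ Sec τ (⊥ : Subgroup (Mat n)ˣ), opOf D F = adjOf D F

/-- `opOf D` is strongly elliptic of order `m`: the principal symbol
`i^m ∑_{|I| = m} ξ_{i₁} ⋯ ξ_{i_m} B_I` has positive definite real part for `ξ ≠ 0`. -/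
def IsStronglyElliptic (D : List (Fin n) →₀ Matrix J J ℂ) (m : ℕ) : Prop :=
  (∀ I : List (Fin n), m < I.length → D I = 0) ∧
    ∀ (ξ : Fin n → ℝ) (v : J → ℂ), ξ ≠ 0 → v ≠ 0 →
      0 < (star v ⬝ᵥ ((Complex.I ^ m •
        ∑ I : Fin m → Fin n, (∏ a, (ξ (I a) : ℂ)) • D (List.ofFn I)) *ᵥ v)).re

/-- The multiplicity of `lam` as an eigenvalue of `opOf D` on the sections over `Γ \ Hyp n` of the
bundle associated with `τ`. -/
def opMult (τ : Matrix (Fin n) (Fin n) ℝ → Matrix J J ℂ) (D : List (Fin n) →₀ Matrix J J ℂ)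
    (Γ : Subgroup (Mat n)ˣ) (lam : ℝ) : Cardinal :=
  Module.rank ℂ (Submodule.span ℂ {F | F ∈ Sec τ Γ ∧ opOf D F = (lam : ℂ) • F})

/-- `Γ₁ \ Hyp n` and `Γ₂ \ Hyp n` are strongly isospectral: every natural strongly elliptic
self-adjoint differential operator on every natural bundle has the same spectrum. -/
def StronglyIsospectral (Γ₁ Γ₂ : Subgroup (Mat n)ˣ) : Prop :=
  ∀ (J : Type) [Fintype J] [DecidableEq J] (τ : Matrix (Fin n) (Fin n) ℝ → Matrix J J ℂ)
    (D : List (Fin n) →₀ Matrix J J ℂ) (m : ℕ), 0 < m → IsRep τ → IsNatural τ D →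
      IsSelfAdj τ D → IsStronglyElliptic D m →
        ∀ lam : ℝ, opMult τ D Γ₁ lam = opMult τ D Γ₂ lam

end

end Pool.Agent.Work.MP_14c213_gt
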