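import Pool.Agent.Work.MP_14c213_gt.Defs

/-!
Interface between the arithmetic part (Theorem B) and the analytic part (Theorem A).
Kleinian groups are given as groups of Lorentz matrices of size 4.
-/

namespace Pool.Agent.Work.MP_14c213_gt

open Matrix
open scoped Matrix

noncomputable section

/-- Complex 2 by 2 matrices. -/
abbrev M2 := Matrix (Fin 2) (Fin 2) ℂ

/-- The matrices `1, σ₁, σ₂, σ₃`. -/
def pauli : Fin 4 → M2 :=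
  ![!![1, 0; 0, 1], !![0, 1; 1, 0], !![0, -Complex.I; Complex.I, 0], !![1, 0; 0, -1]]

/-- The Lorentz matrix of `H ↦ g H gᴴ / |det g|` on hermitian matrices, in the basis `pauli`. -/
def Phi (g : M2) : Mat 3 :=
  Matrix.of fun a b => (2⁻¹ * (pauli a * g * pauli b * gᴴ).trace).re / ‖g.det‖

/-- `γ` is conjugate in `PGL₂(ℂ)` to `diag (z, 1)` with `|z| > 1`. -/
def Lox (γ : (Mat 3)ˣ) (z : ℂ) : Prop :=
  1 < ‖z‖ ∧ ∃ g : M2, g.det ≠ 0 ∧ (γ : Mat 3) = Phi (g * !![z, 0; 0, 1] * g⁻¹)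

/-- Discrete cocompact groups of isometries of hyperbolic 3-space without torsion: every element
except the identity is loxodromic. -/
structure Klein (Γ : Subgroup (Mat 3)ˣ) : Prop where
  lox : ∀ γ ∈ Γ, γ ≠ 1 → ∃ z, Lox γ z
  disc : ∀ R : ℝ, {γ : (Mat 3)ˣ | γ ∈ Γ ∧ (γ : Mat 3) 0 0 ≤ R}.Finite
  coc : ∃ R : ℝ, ∀ g ∈ Frames 3, ∃ γ ∈ Γ, ((γ : Mat 3) * g) 0 0 ≤ R

/-- `cosh ℓ` for a loxodromic Lorentz matrix with translation length `ℓ` and angle `θ`, computed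
from `tr γ = 2 cosh ℓ + 2 cos θ` and `tr γ² = 4 cosh² ℓ + 4 cos² θ - 4`. -/
def chl (γ : Mat 3) : ℝ := (γ.trace / 2 + Real.sqrt (((γ * γ).trace + 4) / 2 - (γ.trace / 2) ^ 2)) / 2

/-- `cos θ` for a loxodromic Lorentz matrix. -/
def cth (γ : Mat 3) : ℝ := (γ.trace / 2 - Real.sqrt (((γ * γ).trace + 4) / 2 - (γ.trace / 2) ^ 2)) / 2

/-- `1 / [C_Γ(γ) : ⟨γ⟩]`. -/
def cen {Γ : Subgroup (Mat 3)ˣ} (γ : Γ) : ℝ :=
  (((Subgroup.zpowers γ).relIndex (Subgroup.centralizer {γ}) : ℕ) : ℝ)⁻¹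

/-- The weighted number `∑ cos^m θ / ([C_Γ(γ) : ⟨γ⟩] (cosh ℓ - cos θ))` over the conjugacy classes
of `Γ` with `cosh ℓ = L`. -/
def lenData (Γ : Subgroup (Mat 3)ˣ) (m : ℕ) (L : ℝ) : ℝ :=
  ∑ᶠ c : ConjClasses Γ, if chl ((Quotient.out c : Γ) : (Mat 3)ˣ) = L then
    cen (Quotient.out c) * cth ((Quotient.out c : Γ) : (Mat 3)ˣ) ^ m / (L - cth ((Quotient.out c : Γ) : (Mat 3)ˣ))
    else 0

/-- The arithmetic input. -/
structure Pair (Γ₁ Γ₂ : Subgroup (Mat 3)ˣ) : Prop where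
  k1 : Klein Γ₁
  k2 : Klein Γ₂
  idx : (Γ₁ ⊓ Γ₂).relIndex Γ₁ = (Γ₁ ⊓ Γ₂).relIndex Γ₂
  idx0 : (Γ₁ ⊓ Γ₂).relIndex Γ₁ ≠ 0
  d0 : ∀ L > 1, lenData Γ₁ 0 L = lenData Γ₂ 0 L
  d1 : ∀ L > 1, lenData Γ₁ 1 L = lenData Γ₂ 1 L
  d2 : ∃ L > 1, lenData Γ₁ 2 L ≠ lenData Γ₂ 2 L

end

end Pool.Agent.Work.MP_14c213_gt
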